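import Pool.Agent.W207.PF.SpecA

/-!
# Finite cosine sums: transforms and windows
-/

set_option autoImplicit false

open Filter Topology Set MeasureTheory
open scoped BigOperators

namespace Pool.Agent.W214.PF

open W207.PR (ct)
open W207.PF (sn)

/-- a finite cosine sum -/
noncomputable def Gc (Z : Finset ℂ) (c : ℂ → ℂ → ℝ) (L a : ℝ) : ℝ :=
  ∑ s ∈ Z, ∑ s' ∈ Z, c s s' * Real.cos (a * L * (s.im - s'.im))

theorem cont_Gc (Z : Finset ℂ) (c : ℂ → ℂ → ℝ) (L : ℝ) : Continuous (Gc Z c L) := by
  unfold Gc
  refine continuous_finsetSum _ fun s _ => continuous_finsetSum _ fun s' _ => ?_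
  fun_prop

theorem int_cos (W : ℝ → ℝ) (hW : Integrable W) (b : ℝ) :
    Integrable (fun a => W a * Real.cos (a * b)) := by
  refine hW.mul_bdd (c := 1) (by fun_prop) (Eventually.of_forall fun x => ?_)
  rw [Real.norm_eq_abs]
  exact Real.abs_cos_le_one _

theorem ct_eq (W : ℝ → ℝ) (b : ℝ) :
    ∫ a, W a * Real.cos (a * b) = ct W (b / (2 * Real.pi)) := by
  unfold ct
  refine integral_congr_ae (Eventually.of_forall fun a => ?_)
  have h : (2 * Real.pi * a * (b / (2 * Real.pi))) = a * b := by
    have := Real.pi_pos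
    field_simp
  simp only [h]

theorem int_Gc (Z : Finset ℂ) (c : ℂ → ℂ → ℝ) (L : ℝ) (W : ℝ → ℝ) (hW : Integrable W) :
    Integrable (fun a => W a * Gc Z c L a) ∧
      ∫ a, W a * Gc Z c L a =
        ∑ s ∈ Z, ∑ s' ∈ Z, c s s' * ct W ((s.im - s'.im) * L / (2 * Real.pi)) := by
  have key : (fun a => W a * Gc Z c L a) = fun a =>
      ∑ s ∈ Z, ∑ s' ∈ Z, c s s' * (W a * Real.cos (a * ((s.im - s'.im) * L))) := by
    funext a
    unfold Gc
    rw [Finset.mul_sum]
    refine Finset.sum_congr rfl fun s _ => ?_
    rw [Finset.mul_sum]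
    refine Finset.sum_congr rfl fun s' _ => ?_
    have : a * L * (s.im - s'.im) = a * ((s.im - s'.im) * L) := by ring
    rw [this]
    ring
  have hi : ∀ s s' : ℂ, Integrable (fun a =>
      c s s' * (W a * Real.cos (a * ((s.im - s'.im) * L)))) := fun s s' =>
    (int_cos W hW _).const_mul _
  have hi2 : ∀ s : ℂ, Integrable (fun a =>
      ∑ s' ∈ Z, c s s' * (W a * Real.cos (a * ((s.im - s'.im) * L)))) := fun s =>
    integrable_finset_sum _ fun s' _ => hi s s'
  constructor
  · rw [key]
    exact integrable_finset_sum _ fun s _ => hi2 s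
  · have : ∫ a, W a * Gc Z c L a = ∫ a, ∑ s ∈ Z, ∑ s' ∈ Z,
        c s s' * (W a * Real.cos (a * ((s.im - s'.im) * L))) := by rw [← key]
    rw [this, integral_finset_sum _ fun s _ => hi2 s]
    refine Finset.sum_congr rfl fun s _ => ?_
    rw [integral_finset_sum _ fun s' _ => hi s s']
    refine Finset.sum_congr rfl fun s' _ => ?_
    rw [integral_const_mul, ct_eq]

theorem win_cos (h a b : ℝ) :
    ∫ x in (a - h / 2)..(a + h / 2), Real.cos (x * b) =
      Real.cos (a * b) * sn h (b / (2 * Real.pi)) := by
  have h1 : ∫ x in (a - h / 2)..(a + h / 2), Real.cos (x * b) =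
      ∫ y in (-(h / 2))..(h / 2), Real.cos ((a + y) * b) := by
    rw [intervalIntegral.integral_comp_add_left (fun x => Real.cos (x * b)) a]
    rfl
  have h2 : ∫ y in (-(h / 2))..(h / 2), Real.sin (y * b) = 0 := by
    have h3 := intervalIntegral.integral_comp_neg (a := -(h / 2)) (b := h / 2)
      (fun y => Real.sin (y * b))
    simp only [neg_mul, Real.sin_neg, neg_neg, intervalIntegral.integral_neg] at h3
    linarith
  have h4 : sn h (b / (2 * Real.pi)) = ∫ y in (-(h / 2))..(h / 2), Real.cos (y * b) := by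
    unfold sn
    refine intervalIntegral.integral_congr fun y _ => ?_
    have h : (2 * Real.pi * y * (b / (2 * Real.pi))) = y * b := by
      have := Real.pi_pos
      field_simp
    simp only [h]
  rw [h1, h4]
  have h5 : ∀ y : ℝ, Real.cos ((a + y) * b) =
      Real.cos (a * b) * Real.cos (y * b) - Real.sin (a * b) * Real.sin (y * b) := by
    intro y
    rw [add_mul, Real.cos_add]
  simp only [h5]
  rw [intervalIntegral.integral_sub, intervalIntegral.integral_const_mul,
    intervalIntegral.integral_const_mul, h2, mul_zero, sub_zero]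
  · exact (by fun_prop : Continuous fun y : ℝ =>
      Real.cos (a * b) * Real.cos (y * b)).intervalIntegrable _ _
  · exact (by fun_prop : Continuous fun y : ℝ =>
      Real.sin (a * b) * Real.sin (y * b)).intervalIntegrable _ _

theorem win_Gc (Z : Finset ℂ) (c : ℂ → ℂ → ℝ) (L h a : ℝ) :
    ∫ x in (a - h / 2)..(a + h / 2), Gc Z c L x =
      Gc Z (fun s s' => c s s' * sn h ((s.im - s'.im) * L / (2 * Real.pi))) L a := by
  unfold Gc
  rw [intervalIntegral.integral_finset_sum]
  · refine Finset.sum_congr rfl fun s _ => ?_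
    rw [intervalIntegral.integral_finset_sum]
    · refine Finset.sum_congr rfl fun s' _ => ?_
      rw [intervalIntegral.integral_const_mul]
      have h1 : ∀ x : ℝ, x * L * (s.im - s'.im) = x * ((s.im - s'.im) * L) := fun x => by ring
      simp only [h1]
      rw [win_cos]
      ring
    · intro s' _
      exact (by fun_prop : Continuous fun x : ℝ =>
        c s s' * Real.cos (x * L * (s.im - s'.im))).intervalIntegrable _ _
  · intro s _
    exact (continuous_finsetSum _ fun s' _ => (by fun_prop : Continuous fun x : ℝ =>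
        c s s' * Real.cos (x * L * (s.im - s'.im)))).intervalIntegrable _ _

end Pool.Agent.W214.PF
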