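import Pool.Agent.W207.PF.SpecB
import Pool.Agent.W214.PF.Gen

/-!
# WIN: pair sums from Montgomery's function
-/

set_option autoImplicit false

open Filter Topology Set MeasureTheory
open scoped BigOperators

namespace Pool.Agent.W214.PF

open W207.PR (ct ZT mz X)
open W207.PF

theorem FF_eq (T : ℝ) : FF T = Gc (ZT T)
    (fun s s' => mz s * mz s' * (4 / (4 + (s.im - s'.im) ^ 2)) / X T) (Real.log T) := by
  funext a
  unfold FF Gc
  rw [Finset.sum_div]
  refine Finset.sum_congr rfl fun s _ => ?_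
  rw [Finset.sum_div]
  refine Finset.sum_congr rfl fun s' _ => ?_
  ring

theorem LT_eq (T : ℝ) (φ : ℝ → ℝ) : W207.PF.LT T φ = ∑ s ∈ ZT T, ∑ s' ∈ ZT T,
    (mz s * mz s' * (4 / (4 + (s.im - s'.im) ^ 2)) / X T) *
      φ ((s.im - s'.im) * Real.log T / (2 * Real.pi)) := by
  unfold W207.PF.LT
  rw [Finset.sum_div]
  refine Finset.sum_congr rfl fun s _ => ?_
  rw [Finset.sum_div]
  refine Finset.sum_congr rfl fun s' _ => ?_
  ring

theorem pfwin : S_WIN := by
  intro T _
  refine ⟨fun W hW => ?_, fun h _ => ?_⟩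
  · rw [FF_eq, LT_eq]
    exact int_Gc _ _ _ W hW
  · have hwin : win T h = Gc (ZT T) (fun s s' =>
        (mz s * mz s' * (4 / (4 + (s.im - s'.im) ^ 2)) / X T) *
          sn h ((s.im - s'.im) * Real.log T / (2 * Real.pi))) (Real.log T) := by
      funext a
      unfold win
      rw [FF_eq]
      exact win_Gc _ _ _ _ _
    rw [hwin]
    refine ⟨cont_Gc _ _ _, fun κ hκ => ?_⟩
    have := int_Gc (ZT T) (fun s s' =>
        (mz s * mz s' * (4 / (4 + (s.im - s'.im) ^ 2)) / X T) *
          sn h ((s.im - s'.im) * Real.log T / (2 * Real.pi))) (Real.log T) κ hκ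
    refine ⟨this.1, this.2.trans ?_⟩
    rw [LT_eq]
    refine Finset.sum_congr rfl fun s _ => Finset.sum_congr rfl fun s' _ => ?_
    ring

end Pool.Agent.W214.PF
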